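import Pool.Agent.H48.HG.Main

set_option autoImplicit false
set_option linter.unusedSectionVars false

open MeasureTheory ProbabilityTheory Filter Topology
open scoped ENNReal

namespace Pool.Agent.H48.HG

/-- Condition (i): under the averaged law `X_n / √n` converges in law to a centred Gaussian with
covariance `v I_d`, for some `v > 0`. -/
def CLT {d : ℕ} {Ω : Type} [MeasurableSpace Ω] (μ : Measure Ω) (R : Finset (Site d))
    (q : ℕ → Ω → Site d → Site d → ℝ) : Prop :=
  ∃ v : NNReal, 0 < v ∧ ∀ f : BoundedContinuousFunction (Fin d → ℝ) ℝ,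
    Tendsto (fun n : ℕ => ∑' x : Site d, avg μ R q n x * f fun i => (x i : ℝ) / √(n : ℝ)) atTop
      (𝓝 (∫ y, f y ∂(Measure.pi fun _ : Fin d => gaussianReal 0 v)))

/-- The model homogenizes: conditions (i) and (ii). -/
def Homogenizes {d : ℕ} {Ω : Type} [MeasurableSpace Ω] (μ : Measure Ω) (R : Finset (Site d))
    (q : ℕ → Ω → Site d → Site d → ℝ) : Prop := CLT μ R q ∧ LocalRatio μ R q

section

variable {d : ℕ} {Ω : Type} [MeasurableSpace Ω] {μ : Measure Ω} [IsProbabilityMeasure μ]
  {R : Finset (Site d)} {q : ℕ → Ω → Site d → Site d → ℝ}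

lemma exists_supp (R : Finset (Site d)) (q : ℕ → Ω → Site d → Site d → ℝ) (n : ℕ) :
    ∃ U : Finset (Site d), ∀ ω, ∀ x ∉ U, kern R q ω n x = 0 := by
  classical
  induction n with
  | zero =>
    refine ⟨{0}, fun ω x hx => ?_⟩
    rw [kern, if_neg (by simpa using hx)]
  | succ n ih =>
    obtain ⟨U, hU⟩ := ih
    refine ⟨R.biUnion fun z => U.image fun y => y + z, fun ω x hx => ?_⟩
    rw [kern]
    refine Finset.sum_eq_zero fun z hz => ?_
    rw [hU ω (x - z), zero_mul]
    intro hc
    apply hx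
    rw [Finset.mem_biUnion]
    exact ⟨z, hz, Finset.mem_image.mpr ⟨x - z, hc, by abel⟩⟩

/-- the test function -/
noncomputable def tent (d : ℕ) : BoundedContinuousFunction (Fin d → ℝ) ℝ :=
  BoundedContinuousFunction.ofNormedAddCommGroup (fun y => max 0 (1 - ‖y‖))
    (by fun_prop) 1 (fun y => by
      rw [Real.norm_eq_abs, abs_of_nonneg (le_max_left _ _)]
      exact max_le zero_le_one (by linarith [norm_nonneg y]))

lemma tent_apply (d : ℕ) (y : Fin d → ℝ) : tent d y = max 0 (1 - ‖y‖) := rfl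

lemma tent_pos (d : ℕ) {v : NNReal} (hv : 0 < v) :
    0 < ∫ y, tent d y ∂(Measure.pi fun _ : Fin d => gaussianReal 0 v) := by
  have : (gaussianReal 0 v).IsOpenPosMeasure :=
    (gaussianReal_absolutelyContinuous' 0 hv.ne').isOpenPosMeasure
  refine Continuous.integral_pos_of_hasCompactSupport_nonneg_nonzero (x := 0)
    (tent d).continuous ?_ ?_ ?_
  · refine HasCompactSupport.intro (isCompact_closedBall (0 : Fin d → ℝ) 1) fun y hy => ?_
    rw [tent_apply]
    refine max_eq_left ?_
    rw [Metric.mem_closedBall, dist_zero_right] at hy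
    linarith [not_le.mp hy]
  · intro y
    rw [tent_apply]; exact le_max_left _ _
  · rw [tent_apply]; simp

lemma stays_of_clt (h : IsEnv μ R q) (hC : CLT μ R q) : Stays μ R q := by
  classical
  obtain ⟨v, hv, hlim⟩ := hC
  have hpos := tent_pos d hv
  have hl := hlim (tent d)
  set I : ℝ := ∫ y, tent d y ∂(Measure.pi fun _ : Fin d => gaussianReal 0 v) with hI
  refine ⟨(d : ℝ) + 1, by positivity, I / 2, by positivity, Eventually.frequently ?_⟩
  filter_upwards [hl.eventually (lt_mem_nhds (show I / 2 < I by linarith)),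
    eventually_ge_atTop 1] with n hn hn1
  obtain ⟨U, hU⟩ := exists_supp R q n
  have hU' : ∀ x ∉ U, avg μ R q n x = 0 := by
    intro x hx
    unfold avg
    rw [integral_congr_ae (g := fun _ => (0 : ℝ)) (Eventually.of_forall fun ω => hU ω x hx)]
    simp
  have hsn : 0 < √(n : ℝ) := Real.sqrt_pos.mpr (by exact_mod_cast hn1)
  refine ⟨U.filter fun x => nrm x ≤ ((d : ℝ) + 1) * √(n : ℝ), fun x hx =>
    (Finset.mem_filter.mp hx).2, ?_⟩
  rw [tsum_eq_sum (s := U) (fun x hx => by rw [hU' x hx, zero_mul])] at hn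
  refine hn.le.trans ?_
  rw [Finset.sum_filter]
  refine Finset.sum_le_sum fun x _ => ?_
  have ha := avg_nonneg h n x
  split_ifs with hx
  · have : tent d (fun i => (x i : ℝ) / √(n : ℝ)) ≤ 1 := by
      rw [tent_apply]
      exact max_le zero_le_one (by linarith [norm_nonneg (fun i => (x i : ℝ) / √(n : ℝ))])
    calc _ ≤ avg μ R q n x * 1 := mul_le_mul_of_nonneg_left this ha
      _ = _ := mul_one _
  · have : tent d (fun i => (x i : ℝ) / √(n : ℝ)) = 0 := by
      rw [tent_apply]
      refine max_eq_left ?_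
      by_contra hcon
      push Not at hcon
      apply hx
      have h1 : ∀ i, |(x i : ℝ)| ≤ √(n : ℝ) := by
        intro i
        have h2 := norm_le_pi_norm (fun i => (x i : ℝ) / √(n : ℝ)) i
        rw [Real.norm_eq_abs, abs_div, abs_of_pos hsn] at h2
        have h3 : |(x i : ℝ)| / √(n : ℝ) ≤ 1 := by linarith
        rwa [div_le_one hsn] at h3
      rw [nrm]
      have h4 : ∑ i, (x i : ℝ) ^ 2 ≤ (((d : ℝ) + 1) * √(n : ℝ)) ^ 2 := by
        calc ∑ i, (x i : ℝ) ^ 2 ≤ ∑ _i : Fin d, (√(n : ℝ)) ^ 2 := by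
              refine Finset.sum_le_sum fun i _ => ?_
              rw [← sq_abs]
              exact pow_le_pow_left₀ (abs_nonneg _) (h1 i) 2
          _ = d * (√(n : ℝ)) ^ 2 := by simp
          _ ≤ ((d : ℝ) + 1) ^ 2 * (√(n : ℝ)) ^ 2 := by
              refine mul_le_mul_of_nonneg_right ?_ (sq_nonneg _)
              have : (0 : ℝ) ≤ d := Nat.cast_nonneg d
              nlinarith
          _ = _ := by ring
      calc √(∑ i, (x i : ℝ) ^ 2) ≤ √((((d : ℝ) + 1) * √(n : ℝ)) ^ 2) := Real.sqrt_le_sqrt h4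
        _ = _ := Real.sqrt_sq (by positivity)
    rw [this, mul_zero]

end

/-! ### unit arrows -/

/-- The `2d` unit arrows: `(i, true)` stands for `e_i` and `(i, false)` for `-e_i`. -/
abbrev Arrow (d : ℕ) := Fin d × Bool

/-- The lattice vector of an arrow. -/
def vec {d : ℕ} (a : Arrow d) : Site d :=
  fun j => if j = a.1 then (if a.2 then 1 else -1) else 0

/-- The arrows `n0 x`, `x ∈ ℤ^d`, are independent and uniform on the `2d` unit arrows. -/
structure IsArrowField {d : ℕ} {Ω : Type} [MeasurableSpace Ω] (μ : Measure Ω)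
    (n0 : Site d → Ω → Arrow d) : Prop where
  meas : ∀ x, Measurable (n0 x)
  indep : iIndepFun n0 μ
  unif : ∀ x a, μ {ω | n0 x ω = a} = ((2 * d : ℕ) : ℝ≥0∞)⁻¹

/-- The steps: all unit vectors. -/
def units (d : ℕ) : Finset (Site d) := Finset.univ.image (vec (d := d))

open Classical in
/-- The probability `p(x, x + z, ω)` of the step `z` from `x` at time `n`: `1 - (2d - 1) ε` if
`x - (x + z) = -z` is the arrow `n0 n x` at `x` at this time, and `ε` for the other unit vectors.
In the model of the problem the arrows do not depend on the time `n`. -/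
noncomputable def arrowEnv {d : ℕ} {Ω : Type} (ε : ℝ) (n0 : ℕ → Site d → Ω → Arrow d) (n : ℕ)
    (ω : Ω) (x z : Site d) : ℝ :=
  if -z = vec (n0 n x ω) then 1 - (2 * (d : ℝ) - 1) * ε
  else if ∃ a : Arrow d, -z = vec a then ε else 0

section

variable {d : ℕ} {Ω : Type} [MeasurableSpace Ω] {μ : Measure Ω} [IsProbabilityMeasure μ]
  {ε : ℝ} {n0 : ℕ → Site d → Ω → Arrow d}

lemma vec_inj : Function.Injective (vec : Arrow d → Site d) := by
  rintro ⟨i, b⟩ ⟨j, c⟩ h
  have h1 := congrFun h i
  simp only [vec, if_true] at h1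
  have hij : i = j := by
    by_contra hne
    rw [if_neg hne] at h1
    cases b <;> simp at h1
  subst hij
  simp only [if_true] at h1
  cases b <;> cases c <;> simp_all

lemma neg_vec (a : Arrow d) : -vec a = vec (a.1, !a.2) := by
  funext j
  obtain ⟨i, b⟩ := a
  simp only [vec, Pi.neg_apply]
  by_cases h : j = i <;> cases b <;> simp [h]

lemma mem_units_iff (z : Site d) : z ∈ units d ↔ ∃ a : Arrow d, -z = vec a := by
  constructor
  · intro h
    obtain ⟨a, -, rfl⟩ := Finset.mem_image.mp h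
    exact ⟨_, neg_vec a⟩
  · rintro ⟨a, ha⟩
    refine Finset.mem_image.mpr ⟨(a.1, !a.2), Finset.mem_univ _, ?_⟩
    rw [← neg_vec, ← ha, neg_neg]

open Classical in
/-- the transition vector of an arrow -/
noncomputable def gv (d : ℕ) (ε : ℝ) (a : Arrow d) (z : Site d) : ℝ :=
  if -z = vec a then 1 - (2 * (d : ℝ) - 1) * ε
  else if ∃ a : Arrow d, -z = vec a then ε else 0

lemma arrowEnv_eq (n : ℕ) (ω : Ω) (x : Site d) : arrowEnv ε n0 n ω x = gv d ε (n0 n x ω) := rfl

lemma gv_meas (d : ℕ) (ε : ℝ) : Measurable (gv d ε) := measurable_of_finite _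

lemma isEnv [NeZero d] (h : ∀ n, IsArrowField μ (n0 n)) (h0 : 0 < ε) (h1 : ε < 1 / (2 * (d : ℝ))) :
    IsEnv μ (units d) (arrowEnv ε n0) := by
  classical
  have hd : (1 : ℝ) ≤ d := by exact_mod_cast Nat.one_le_iff_ne_zero.2 (NeZero.ne d)
  have h2 : 2 * (d : ℝ) * ε < 1 := by
    rw [lt_div_iff₀ (by linarith)] at h1; linarith
  have hpos : 0 ≤ 1 - (2 * (d : ℝ) - 1) * ε := by nlinarith
  refine ⟨?_, ?_, ?_, ?_, ?_, ?_⟩
  · intro n y z
    exact (measurable_pi_apply z).comp ((gv_meas d ε).comp ((h n).meas y))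
  · intro n ω y z
    unfold arrowEnv
    split_ifs
    · exact hpos
    · exact h0.le
    · exact le_rfl
  · intro n ω y z hz
    rw [mem_units_iff] at hz
    unfold arrowEnv
    rw [if_neg (fun hc => hz ⟨_, hc⟩), if_neg hz]
  · intro n ω y
    have e1 : ∑ z ∈ units d, arrowEnv ε n0 n ω y z =
        ∑ a : Arrow d, (if a = ((n0 n y ω).1, !(n0 n y ω).2) then 1 - (2 * (d : ℝ) - 1) * ε else ε) := by
      unfold units
      rw [Finset.sum_image (fun a _ b _ hab => vec_inj hab)]
      refine Finset.sum_congr rfl fun a _ => ?_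
      unfold arrowEnv
      rw [neg_vec]
      by_cases ha : a = ((n0 n y ω).1, !(n0 n y ω).2)
      · rw [if_pos ha, if_pos (by rw [ha]; simp)]
      · rw [if_neg ha, if_neg, if_pos ⟨_, rfl⟩]
        intro hc
        apply ha
        have := vec_inj hc
        rw [← this]; simp
    rw [e1, Finset.sum_ite, Finset.filter_eq' , if_pos (Finset.mem_univ _)]
    rw [Finset.sum_singleton, Finset.sum_const, nsmul_eq_mul]
    have hc : ((Finset.univ.filter fun a : Arrow d => ¬ a = ((n0 n y ω).1, !(n0 n y ω).2)).card : ℝ) =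
        2 * (d : ℝ) - 1 := by
      rw [Finset.filter_not, Finset.filter_eq', if_pos (Finset.mem_univ _),
        Finset.card_sdiff_of_subset (Finset.subset_univ _), Finset.card_univ]
      rw [Nat.cast_sub (by simp [Fintype.card_prod]; exact Nat.one_le_iff_ne_zero.2 (by
        simp [NeZero.ne d]))]
      simp [Fintype.card_prod]; ring
    rw [hc]; ring
  · intro n
    exact (h n).indep.comp (fun _ => gv d ε) fun _ => gv_meas d ε
  · intro n y
    have hid : IdentDistrib (n0 n y) (n0 0 0) μ μ := by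
      refine ⟨((h n).meas y).aemeasurable, ((h 0).meas 0).aemeasurable, ?_⟩
      refine Measure.ext_of_singleton fun a => ?_
      rw [Measure.map_apply ((h n).meas y) (measurableSet_singleton a),
        Measure.map_apply ((h 0).meas 0) (measurableSet_singleton a)]
      exact ((h n).unif y a).trans ((h 0).unif 0 a).symm
    exact hid.comp (gv_meas d ε)

lemma arrow_random [NeZero d] (h : ∀ n, IsArrowField μ (n0 n)) (_h0 : 0 < ε) (h1 : ε < 1 / (2 * (d : ℝ)))
    {z : Site d} (hz : z ∈ units d) : ¬ ∃ c : ℝ, ∀ᵐ ω ∂μ, arrowEnv ε n0 0 ω 0 z = c := by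
  classical
  rintro ⟨c, hc⟩
  have hd : (1 : ℝ) ≤ d := by exact_mod_cast Nat.one_le_iff_ne_zero.2 (NeZero.ne d)
  have h2 : 2 * (d : ℝ) * ε < 1 := by
    rw [lt_div_iff₀ (by linarith)] at h1; linarith
  obtain ⟨a, ha⟩ := (mem_units_iff z).mp hz
  have hex : ∀ b : Arrow d, ∃ ω, n0 0 0 ω = b ∧ arrowEnv ε n0 0 ω 0 z = c := by
    intro b
    by_contra hno
    push Not at hno
    have hle : μ {ω | n0 0 0 ω = b} ≤ μ {ω | ¬ arrowEnv ε n0 0 ω 0 z = c} :=
      measure_mono fun ω hω => hno ω hω
    rw [ae_iff.mp hc, (h 0).unif 0 b] at hle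
    have : ((2 * d : ℕ) : ℝ≥0∞)⁻¹ ≠ 0 := ENNReal.inv_ne_zero.mpr (ENNReal.natCast_ne_top _)
    exact this (le_antisymm hle bot_le)
  obtain ⟨ω1, hn1, he1⟩ := hex a
  obtain ⟨ω2, hn2, he2⟩ := hex (a.1, !a.2)
  have hne : vec a ≠ vec (a.1, !a.2) := by
    intro hc
    have := congrArg Prod.snd (vec_inj hc)
    simp at this
  have v1 : arrowEnv ε n0 0 ω1 0 z = 1 - (2 * (d : ℝ) - 1) * ε := by
    unfold arrowEnv; rw [if_pos (by rw [hn1, ha])]
  have v2 : arrowEnv ε n0 0 ω2 0 z = ε := by
    unfold arrowEnv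
    rw [if_neg (by rw [hn2, ha]; exact hne), if_pos ⟨a, ha⟩]
  nlinarith [he1, he2, v1, v2]

lemma exists_arrowField (d : ℕ) [NeZero d] : ∃ (Ω : Type) (_ : MeasurableSpace Ω) (μ : Measure Ω)
    (_ : IsProbabilityMeasure μ) (n0 : Site d → Ω → Arrow d), IsArrowField μ n0 := by
  classical
  refine ⟨Site d → Arrow d, inferInstance,
    Measure.infinitePi fun _ : Site d => (PMF.uniformOfFintype (Arrow d)).toMeasure, inferInstance,
    fun x ω => ω x, fun x => measurable_pi_apply x, ?_, fun x a => ?_⟩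
  · exact iIndepFun_infinitePi (X := fun (_ : Site d) (a : Arrow d) => a) fun _ => measurable_id
  · have h1 := Measure.infinitePi_map_eval
      (fun _ : Site d => (PMF.uniformOfFintype (Arrow d)).toMeasure) x
    have h2 : (Measure.infinitePi fun _ : Site d => (PMF.uniformOfFintype (Arrow d)).toMeasure)
        {ω | ω x = a} = (PMF.uniformOfFintype (Arrow d)).toMeasure {a} := by
      have h3 : (Measure.infinitePi fun _ : Site d => (PMF.uniformOfFintype (Arrow d)).toMeasure)
          {ω | ω x = a} = ((Measure.infinitePi fun _ : Site d =>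
            (PMF.uniformOfFintype (Arrow d)).toMeasure).map (fun ω => ω x)) {a} := by
        rw [Measure.map_apply (measurable_pi_apply x) (measurableSet_singleton a)]
        rfl
      rw [h3, h1]
    rw [h2, PMF.toMeasure_apply_singleton _ _ (measurableSet_singleton a),
      PMF.uniformOfFintype_apply]
    simp [Fintype.card_prod, mul_comm]

end

end Pool.Agent.H48.HG
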