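import Mathlib

set_option autoImplicit false

open MeasureTheory ProbabilityTheory Filter Topology
open scoped ENNReal

namespace Pool.Agent.H48.HG

/-- Lattice points. -/
abbrev Site (d : ℕ) := Fin d → ℤ

/-- `q n ω y z`: the probability of the step `z` for a walker who is at `y` at time `n` in the
environment `ω`. The steps are in the finite set `R`; at every time the vectors of transition
probabilities of the sites are independent, and all these vectors have the same law. Nothing is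
assumed about different times: the environment may be constant in time or resampled. -/
structure IsEnv {d : ℕ} {Ω : Type} [MeasurableSpace Ω] (μ : Measure Ω) (R : Finset (Site d))
    (q : ℕ → Ω → Site d → Site d → ℝ) : Prop where
  meas : ∀ n y z, Measurable fun ω => q n ω y z
  nonneg : ∀ n ω y z, 0 ≤ q n ω y z
  outside : ∀ n ω y, ∀ z ∉ R, q n ω y z = 0
  sum : ∀ n ω y, ∑ z ∈ R, q n ω y z = 1
  indep : ∀ n, iIndepFun (fun (y : Site d) (ω : Ω) => q n ω y) μ
  ident : ∀ n y, IdentDistrib (fun ω => q n ω y) (fun ω => q 0 ω 0) μ μ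

/-- The quenched kernel: the probability that the walk started at `0` is at `x` at time `n`. -/
noncomputable def kern {d : ℕ} {Ω : Type} (R : Finset (Site d))
    (q : ℕ → Ω → Site d → Site d → ℝ) (ω : Ω) : ℕ → Site d → ℝ
  | 0, x => if x = 0 then 1 else 0
  | n + 1, x => ∑ z ∈ R, kern R q ω n (x - z) * q n ω (x - z) z

/-- The averaged kernel. -/
noncomputable def avg {d : ℕ} {Ω : Type} [MeasurableSpace Ω] (μ : Measure Ω)
    (R : Finset (Site d)) (q : ℕ → Ω → Site d → Site d → ℝ) (n : ℕ) (x : Site d) : ℝ :=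
  ∫ ω, kern R q ω n x ∂μ

/-- Euclidean norm of a lattice point. -/
noncomputable def nrm {d : ℕ} (x : Site d) : ℝ := √(∑ i, (x i : ℝ) ^ 2)

/-- Condition (ii). -/
def LocalRatio {d : ℕ} {Ω : Type} [MeasurableSpace Ω] (μ : Measure Ω) (R : Finset (Site d))
    (q : ℕ → Ω → Site d → Site d → ℝ) : Prop :=
  ∀ C : ℝ, 0 < C → ∀ δ : ℝ, 0 < δ →
    Tendsto (fun n : ℕ => ⨆ x : {x : Site d // nrm x ≤ C * √(n : ℝ) ∧ 0 < avg μ R q n x},
      μ {ω | δ < |kern R q ω n x / avg μ R q n x - 1|}) atTop (𝓝 0)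

/-- For some `C` and `c > 0` the averaged walk is with probability at least `c` in the ball of
radius `C √n` at time `n`, for infinitely many `n`. -/
def Stays {d : ℕ} {Ω : Type} [MeasurableSpace Ω] (μ : Measure Ω) (R : Finset (Site d))
    (q : ℕ → Ω → Site d → Site d → ℝ) : Prop :=
  ∃ C : ℝ, 0 < C ∧ ∃ c : ℝ, 0 < c ∧ ∃ᶠ n : ℕ in atTop, ∃ F : Finset (Site d),
    (∀ x ∈ F, nrm x ≤ C * √(n : ℝ)) ∧ c ≤ ∑ x ∈ F, avg μ R q n x

section

variable {d : ℕ} {Ω : Type} [MeasurableSpace Ω] {μ : Measure Ω} [IsProbabilityMeasure μ]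
  {R : Finset (Site d)} {q : ℕ → Ω → Site d → Site d → ℝ}

lemma q_le_one (h : IsEnv μ R q) (n : ℕ) (ω : Ω) (y z : Site d) : q n ω y z ≤ 1 := by
  by_cases hz : z ∈ R
  · rw [← h.sum n ω y]
    exact Finset.single_le_sum (f := fun z => q n ω y z) (fun i _ => h.nonneg n ω y i) hz
  · rw [h.outside n ω y z hz]; exact zero_le_one

lemma kern_nonneg (h : IsEnv μ R q) (ω : Ω) (n : ℕ) : ∀ x, 0 ≤ kern R q ω n x := by
  induction n with
  | zero => intro x; unfold kern; split_ifs <;> norm_num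
  | succ n ih =>
    intro x
    rw [kern]
    exact Finset.sum_nonneg fun z _ => mul_nonneg (ih _) (h.nonneg _ _ _ _)

lemma kern_meas (h : IsEnv μ R q) (n : ℕ) : ∀ x, Measurable fun ω => kern R q ω n x := by
  induction n with
  | zero => intro x; unfold kern; exact measurable_const
  | succ n ih =>
    intro x
    simp only [kern]
    exact Finset.measurable_sum _ fun z _ => (ih _).mul (h.meas _ _ _)

lemma kern_sum_le (h : IsEnv μ R q) (ω : Ω) (n : ℕ) :
    ∀ F : Finset (Site d), ∑ x ∈ F, kern R q ω n x ≤ 1 := by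
  classical
  induction n with
  | zero =>
    intro F
    simp only [kern]
    rw [Finset.sum_ite_eq' F 0 (fun _ => (1 : ℝ))]
    split_ifs <;> norm_num
  | succ n ih =>
    intro F
    simp only [kern]
    rw [Finset.sum_comm]
    set U : Finset (Site d) := R.biUnion fun z => F.image fun x => x - z with hU
    calc ∑ z ∈ R, ∑ x ∈ F, kern R q ω n (x - z) * q n ω (x - z) z
        = ∑ z ∈ R, ∑ y ∈ F.image (fun x => x - z), kern R q ω n y * q n ω y z := by
          refine Finset.sum_congr rfl fun z _ => ?_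
          rw [Finset.sum_image]
          intro a _ b _ hab
          exact sub_left_injective hab
      _ ≤ ∑ z ∈ R, ∑ y ∈ U, kern R q ω n y * q n ω y z := by
          refine Finset.sum_le_sum fun z hz => ?_
          refine Finset.sum_le_sum_of_subset_of_nonneg ?_ fun y _ _ =>
            mul_nonneg (kern_nonneg h ω n y) (h.nonneg _ _ _ _)
          exact Finset.subset_biUnion_of_mem (fun z => F.image fun x => x - z) hz
      _ = ∑ y ∈ U, kern R q ω n y * ∑ z ∈ R, q n ω y z := by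
          rw [Finset.sum_comm]
          exact Finset.sum_congr rfl fun y _ => by rw [Finset.mul_sum]
      _ = ∑ y ∈ U, kern R q ω n y := by simp only [h.sum, mul_one]
      _ ≤ 1 := ih U

lemma kern_le_one (h : IsEnv μ R q) (ω : Ω) (n : ℕ) (x : Site d) : kern R q ω n x ≤ 1 := by
  simpa using kern_sum_le h ω n {x}

lemma kern_int (h : IsEnv μ R q) (n : ℕ) (x : Site d) :
    Integrable (fun ω => kern R q ω n x) μ := by
  refine Integrable.mono' (integrable_const (1 : ℝ)) (kern_meas h n x).aestronglyMeasurable ?_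
  refine Eventually.of_forall fun ω => ?_
  rw [Real.norm_eq_abs, abs_of_nonneg (kern_nonneg h ω n x)]
  exact kern_le_one h ω n x

lemma avg_nonneg (h : IsEnv μ R q) (n : ℕ) (x : Site d) : 0 ≤ avg μ R q n x :=
  integral_nonneg fun ω => kern_nonneg h ω n x

lemma avg_sum_le (h : IsEnv μ R q) (n : ℕ) (F : Finset (Site d)) :
    ∑ x ∈ F, avg μ R q n x ≤ 1 := by
  unfold avg
  rw [← integral_finset_sum _ fun x _ => kern_int h n x]
  calc ∫ ω, ∑ x ∈ F, kern R q ω n x ∂μ ≤ ∫ _ω, (1 : ℝ) ∂μ :=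
        integral_mono (integrable_finset_sum _ fun x _ => kern_int h n x) (integrable_const _)
          fun ω => kern_sum_le h ω n F
    _ = 1 := by simp

/-- the abstract fluctuation lemma -/
lemma fluct {T X : Ω → ℝ} (hT : Measurable T) (hX : Measurable X) (hTX : IndepFun T X μ)
    {a b c lo hi : ℝ} {p : ℝ≥0∞} (hc : 0 ≤ c) (hl : hi - lo < c * (b - a))
    (ha : p ≤ μ {ω | X ω ≤ a}) (hb : p ≤ μ {ω | b ≤ X ω}) :
    p ≤ μ {ω | ¬ (lo ≤ T ω + c * X ω ∧ T ω + c * X ω ≤ hi)} := by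
  set A : Set Ω := T ⁻¹' Set.Ici (lo - c * a) with hA
  have hAm : MeasurableSet A := hT measurableSet_Ici
  have hXa : MeasurableSet {ω | X ω ≤ a} := hX measurableSet_Iic
  have hXb : MeasurableSet {ω | b ≤ X ω} := hX measurableSet_Ici
  have e1 : μ (A ∩ {ω | b ≤ X ω}) = μ A * μ {ω | b ≤ X ω} :=
    hTX.measure_inter_preimage_eq_mul _ _ measurableSet_Ici measurableSet_Ici
  have e2 : μ (Aᶜ ∩ {ω | X ω ≤ a}) = μ Aᶜ * μ {ω | X ω ≤ a} := by
    have := hTX.measure_inter_preimage_eq_mul (Set.Ici (lo - c * a))ᶜ (Set.Iic a)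
      measurableSet_Ici.compl measurableSet_Iic
    exact this
  have hdis : Disjoint (A ∩ {ω | b ≤ X ω}) (Aᶜ ∩ {ω | X ω ≤ a}) :=
    (disjoint_compl_right.mono Set.inter_subset_left Set.inter_subset_left)
  have hun : μ (A ∩ {ω | b ≤ X ω}) + μ (Aᶜ ∩ {ω | X ω ≤ a}) =
      μ ((A ∩ {ω | b ≤ X ω}) ∪ (Aᶜ ∩ {ω | X ω ≤ a})) :=
    (measure_union hdis (hAm.compl.inter hXa)).symm
  calc p = μ A * p + μ Aᶜ * p := by
        rw [← add_mul, prob_add_prob_compl hAm, one_mul]
    _ ≤ μ A * μ {ω | b ≤ X ω} + μ Aᶜ * μ {ω | X ω ≤ a} := by gcongr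
    _ = μ ((A ∩ {ω | b ≤ X ω}) ∪ (Aᶜ ∩ {ω | X ω ≤ a})) := by rw [← e1, ← e2, hun]
    _ ≤ _ := by
      refine measure_mono ?_
      rintro ω (⟨h1, h2⟩ | ⟨h1, h2⟩)
      · have h1' : lo - c * a ≤ T ω := h1
        have h2' : b ≤ X ω := h2
        rintro ⟨-, h4⟩
        nlinarith [mul_le_mul_of_nonneg_left h2' hc]
      · have h1' : ¬ (lo - c * a ≤ T ω) := h1
        have h2' : X ω ≤ a := h2
        rintro ⟨h3, -⟩
        apply h1'
        nlinarith [mul_le_mul_of_nonneg_left h2' hc]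

/-- a bounded random variable which is not almost surely constant -/
lemma exists_gap {X : Ω → ℝ} (hX : Measurable X) (h0 : ∀ ω, 0 ≤ X ω) (h1 : ∀ ω, X ω ≤ 1)
    (hn : ¬ ∃ c : ℝ, ∀ᵐ ω ∂μ, X ω = c) :
    ∃ a b : ℝ, 0 ≤ a ∧ a < b ∧ 0 < μ {ω | X ω ≤ a} ∧ 0 < μ {ω | b ≤ X ω} := by
  have hint : Integrable X μ := by
    refine Integrable.mono' (integrable_const (1 : ℝ)) hX.aestronglyMeasurable ?_
    exact Eventually.of_forall fun ω => by
      rw [Real.norm_eq_abs, abs_of_nonneg (h0 ω)]; exact h1 ω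
  set c : ℝ := ∫ ω, X ω ∂μ with hc
  have hc0 : ∫ ω, (X ω - c) ∂μ = 0 := by
    rw [integral_sub hint (integrable_const _)]; simp [hc]
  have key : ∀ Y : Ω → ℝ, Measurable Y → Integrable Y μ → ∫ ω, Y ω ∂μ = 0 →
      (¬ ∀ᵐ ω ∂μ, Y ω = 0) → ∃ n : ℕ, 0 < μ {ω | 1 / ((n : ℝ) + 1) ≤ Y ω} := by
    intro Y hY hYi hY0 hYn
    by_contra hcon
    push Not at hcon
    have hz : ∀ n : ℕ, μ {ω | 1 / ((n : ℝ) + 1) ≤ Y ω} = 0 := fun n => le_antisymm (hcon n) bot_le
    have hle : ∀ᵐ ω ∂μ, Y ω ≤ 0 := by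
      have : ∀ᵐ ω ∂μ, ∀ n : ℕ, Y ω < 1 / ((n : ℝ) + 1) := by
        rw [ae_all_iff]
        intro n
        rw [ae_iff]
        simpa using hz n
      filter_upwards [this] with ω hω
      by_contra hpos
      push Not at hpos
      obtain ⟨n, hn⟩ := exists_nat_one_div_lt hpos
      exact absurd (hω n) (not_lt.mpr hn.le)
    have hneg : ∀ᵐ ω ∂μ, 0 ≤ -Y ω := by filter_upwards [hle] with ω hω; linarith
    have hint0 : ∫ ω, -Y ω ∂μ = 0 := by rw [integral_neg, hY0, neg_zero]
    have := (integral_eq_zero_iff_of_nonneg_ae hneg hYi.neg).mp hint0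
    apply hYn
    filter_upwards [this] with ω hω
    have : -Y ω = 0 := hω
    linarith
  have hne : ¬ ∀ᵐ ω ∂μ, X ω - c = 0 := by
    intro h
    exact hn ⟨c, by filter_upwards [h] with ω hω; linarith⟩
  obtain ⟨n, hn1⟩ := key (fun ω => X ω - c) (hX.sub_const c) (hint.sub (integrable_const _)) hc0 hne
  obtain ⟨m, hm1⟩ := key (fun ω => c - X ω) (measurable_const.sub hX)
    ((integrable_const _).sub hint) (by
      have : ∫ ω, (c - X ω) ∂μ = - ∫ ω, (X ω - c) ∂μ := by
        rw [← integral_neg]; congr 1; ext ω; ring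
      rw [this, hc0, neg_zero]) (by
      intro h
      apply hne
      filter_upwards [h] with ω hω; linarith)
  have hn0 : (0 : ℝ) < 1 / ((n : ℝ) + 1) := by positivity
  have hm0 : (0 : ℝ) < 1 / ((m : ℝ) + 1) := by positivity
  refine ⟨c - 1 / ((m : ℝ) + 1), c + 1 / ((n : ℝ) + 1), ?_, by linarith, ?_, ?_⟩
  · by_contra hcon
    push Not at hcon
    have : {ω | 1 / ((m : ℝ) + 1) ≤ c - X ω} = ∅ := by
      ext ω
      simp only [Set.mem_setOf_eq, Set.mem_empty_iff_false, iff_false, not_le]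
      have := h0 ω
      linarith
    rw [this] at hm1
    simp at hm1
  · refine lt_of_lt_of_le hm1 (measure_mono fun ω hω => ?_)
    have : 1 / ((m : ℝ) + 1) ≤ c - X ω := hω
    show X ω ≤ _
    linarith
  · refine lt_of_lt_of_le hn1 (measure_mono fun ω hω => ?_)
    have : 1 / ((n : ℝ) + 1) ≤ X ω - c := hω
    show _ ≤ X ω
    linarith

end

end Pool.Agent.H48.HG
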