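import Pool.Agent.H48.HG.Main

set_option autoImplicit false
set_option linter.unusedSectionVars false

open MeasureTheory ProbabilityTheory Filter Topology
open scoped ENNReal

namespace Pool.Agent.H48.HG

section

variable {d : ℕ} {Ω : Type} [MeasurableSpace Ω] {μ : Measure Ω} [IsProbabilityMeasure μ]
  {R : Finset (Site d)} {q : ℕ → Ω → Site d → Site d → ℝ}

lemma ratio_pos {k M δ : ℝ} (hk : 0 ≤ k) (hδ1 : δ < 1) (h : ¬ δ < |k / M - 1|) :
    0 < M ∧ (1 - δ) * M ≤ k ∧ k ≤ (1 + δ) * M := by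
  push Not at h
  obtain ⟨h1, h2⟩ := abs_le.mp h
  have h3 : 0 < k / M := by linarith
  have hM : 0 < M := by
    by_contra hM
    push Not at hM
    have := div_nonpos_of_nonneg_of_nonpos hk hM
    linarith
  refine ⟨hM, ?_, ?_⟩
  · have : 1 - δ ≤ k / M := by linarith
    rwa [le_div_iff₀ hM] at this
  · have : k / M ≤ 1 + δ := by linarith
    rwa [div_le_iff₀ hM] at this

theorem everyKernel (h : IsEnv μ R q) (hR : ∀ z ∈ R, ¬ ∃ c : ℝ, ∀ᵐ ω ∂μ, q 0 ω 0 z = c) :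
    ∃ δ : ℝ, 0 < δ ∧ ∃ η : ℝ≥0∞, 0 < η ∧ ∀ (m : ℕ → Site d → ℝ) (n : ℕ) (x : Site d),
      η ≤ μ {ω | δ < |kern R q ω (n + 1) x / m (n + 1) x - 1|} ∨
      ∃ z ∈ R, η ≤ μ {ω | δ < |kern R q ω n (x - z) / m n (x - z) - 1|} := by
  classical
  have hgap : ∀ z : Site d, ∃ ab : ℝ × ℝ, z ∈ R → 0 ≤ ab.1 ∧ ab.1 < ab.2 ∧
      0 < μ {ω | q 0 ω 0 z ≤ ab.1} ∧ 0 < μ {ω | ab.2 ≤ q 0 ω 0 z} := by
    intro z
    by_cases hz : z ∈ R
    · obtain ⟨a, b, h1, h2, h3, h4⟩ := exists_gap (μ := μ) (h.meas 0 0 z)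
        (fun ω => h.nonneg 0 ω 0 z) (fun ω => q_le_one h 0 ω 0 z) (hR z hz)
      exact ⟨(a, b), fun _ => ⟨h1, h2, h3, h4⟩⟩
    · exact ⟨(0, 0), fun hz' => absurd hz' hz⟩
  choose ab hab using hgap
  obtain ⟨ω0⟩ : Nonempty Ω := μ.nonempty_of_neZero
  have hRne : R.Nonempty := by
    by_contra hne
    rw [Finset.not_nonempty_iff_eq_empty] at hne
    have := h.sum 0 ω0 0
    rw [hne, Finset.sum_empty] at this
    exact zero_ne_one this
  obtain ⟨z1, hz1, hmin⟩ := Finset.exists_min_image R (fun z => (ab z).2 - (ab z).1) hRne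
  set κ : ℝ := ((ab z1).2 - (ab z1).1) / 2 with hκ
  have hκ0 : 0 < κ := by
    have := (hab z1 hz1).2.1
    rw [hκ]; linarith
  have hb1 : ∀ z ∈ R, (ab z).2 ≤ 1 := by
    intro z hz
    by_contra hcon
    push Not at hcon
    have h4 := (hab z hz).2.2.2
    have : {ω | (ab z).2 ≤ q 0 ω 0 z} = ∅ := by
      ext ω
      simp only [Set.mem_setOf_eq, Set.mem_empty_iff_false, iff_false, not_le]
      exact lt_of_le_of_lt (q_le_one h 0 ω 0 z) hcon
    rw [this] at h4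
    simp at h4
  have hκab : ∀ z ∈ R, (1 + κ) * (ab z).1 < (ab z).2 := by
    intro z hz
    have h1 := hmin z hz
    have h2 := (hab z hz).2.1
    have h3 := hb1 z hz
    have h4 := (hab z hz).1
    have h5 : κ * (ab z).1 ≤ κ * 1 := mul_le_mul_of_nonneg_left (by linarith) hκ0.le
    have h6 : κ ≤ ((ab z).2 - (ab z).1) / 2 := by rw [hκ]; linarith
    linarith
  set δ : ℝ := min (1 / 4) (κ / 8) with hδd
  have hδ : 0 < δ := lt_min (by norm_num) (by positivity)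
  have hδ4 : δ ≤ 1 / 4 := min_le_left _ _
  have hδκ : δ ≤ κ / 8 := min_le_right _ _
  have hδ1 : δ < 1 := by linarith
  have hsq : (1 + δ) ^ 2 ≤ (1 + κ) * (1 - δ) ^ 2 := by
    have h1 : (1 + 8 * δ) * (1 - δ) ^ 2 ≤ (1 + κ) * (1 - δ) ^ 2 :=
      mul_le_mul_of_nonneg_right (by linarith) (sq_nonneg _)
    have h2 : (1 + δ) ^ 2 ≤ (1 + 8 * δ) * (1 - δ) ^ 2 := by
      nlinarith [mul_pos hδ hδ, mul_pos (mul_pos hδ hδ) hδ]
    linarith
  set pL : ℝ≥0∞ := ∏ z ∈ R, μ {ω | q 0 ω 0 z ≤ (ab z).1} with hpL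
  set pH : ℝ≥0∞ := ∏ z ∈ R, μ {ω | (ab z).2 ≤ q 0 ω 0 z} with hpH
  have hL0 : 0 < pL := by
    rw [pos_iff_ne_zero, hpL, Finset.prod_ne_zero_iff]
    exact fun z hz => (hab z hz).2.2.1.ne'
  have hH0 : 0 < pH := by
    rw [pos_iff_ne_zero, hpH, Finset.prod_ne_zero_iff]
    exact fun z hz => (hab z hz).2.2.2.ne'
  set p : ℝ≥0∞ := min pL pH with hp
  have hp0 : 0 < p := lt_min hL0 hH0
  set K : ℝ≥0∞ := (R.card : ℝ≥0∞) + 1 with hK
  have hK0 : K ≠ 0 := by simp [hK]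
  have hKt : K ≠ ⊤ := by simp [hK]
  have hpt : p ≠ ⊤ := by
    have : pL ≤ 1 := Finset.prod_le_one' fun z _ => prob_le_one
    exact ne_top_of_le_ne_top ENNReal.one_ne_top ((min_le_left _ _).trans this)
  refine ⟨δ, hδ, p / K, ENNReal.div_pos hp0.ne' hKt, fun m n x => ?_⟩
  by_contra hcon
  push Not at hcon
  obtain ⟨hc1, hc2⟩ := hcon
  set G1 : Set Ω := {ω | δ < |kern R q ω (n + 1) x / m (n + 1) x - 1|} with hG1
  set G2 : Site d → Set Ω := fun z => {ω | δ < |kern R q ω n (x - z) / m n (x - z) - 1|} with hG2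
  have hGlt : μ (G1 ∪ ⋃ z ∈ R, G2 z) < p := by
    calc μ (G1 ∪ ⋃ z ∈ R, G2 z) ≤ μ G1 + μ (⋃ z ∈ R, G2 z) := measure_union_le _ _
      _ ≤ μ G1 + ∑ z ∈ R, μ (G2 z) := by
          gcongr
          exact measure_biUnion_finset_le _ _
      _ ≤ μ G1 + ∑ _z ∈ R, (p / K) := by
          gcongr with z hz
          exact (hc2 z hz).le
      _ < p / K + ∑ _z ∈ R, (p / K) := by
          refine ENNReal.add_lt_add_right ?_ hc1
          rw [Finset.sum_const, nsmul_eq_mul]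
          exact ENNReal.mul_ne_top (ENNReal.natCast_ne_top _) (ENNReal.div_ne_top hpt hK0)
      _ = p := by
          rw [Finset.sum_const, nsmul_eq_mul]
          have : p / K + (R.card : ℝ≥0∞) * (p / K) = K * (p / K) := by rw [hK]; ring
          rw [this, ENNReal.mul_div_cancel hK0 hKt]
  set S : Finset (Site d) := R.image fun z => x - z with hS
  have hinj : Set.InjOn (fun z : Site d => x - z) R := fun a _ b _ hab => sub_right_injective hab
  have hlow : μ (⋂ i ∈ S, (fun ω => q n ω i) ⁻¹' {v : Site d → ℝ | v (x - i) ≤ (ab (x - i)).1}) =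
      pL := by
    rw [(h.indep n).measure_inter_preimage_eq_mul S (sets := fun i =>
      {v : Site d → ℝ | v (x - i) ≤ (ab (x - i)).1})
      (fun i _ => (measurable_pi_apply (x - i)) measurableSet_Iic), hS, Finset.prod_image hinj, hpL]
    refine Finset.prod_congr rfl fun z _ => ?_
    have e := (h.ident n (x - z)).measure_mem_eq (s := {v : Site d → ℝ | v z ≤ (ab z).1})
      ((measurable_pi_apply z) measurableSet_Iic)
    have e2 : x - (x - z) = z := by abel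
    simp only [e2]
    exact e
  have hhigh : μ (⋂ i ∈ S, (fun ω => q n ω i) ⁻¹' {v : Site d → ℝ | (ab (x - i)).2 ≤ v (x - i)}) =
      pH := by
    rw [(h.indep n).measure_inter_preimage_eq_mul S (sets := fun i =>
      {v : Site d → ℝ | (ab (x - i)).2 ≤ v (x - i)})
      (fun i _ => (measurable_pi_apply (x - i)) measurableSet_Ici), hS, Finset.prod_image hinj, hpH]
    refine Finset.prod_congr rfl fun z _ => ?_
    have e := (h.ident n (x - z)).measure_mem_eq (s := {v : Site d → ℝ | (ab z).2 ≤ v z})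
      ((measurable_pi_apply z) measurableSet_Ici)
    have e2 : x - (x - z) = z := by abel
    simp only [e2]
    exact e
  have hex : ∀ A : Set Ω, p ≤ μ A → ∃ ω ∈ A, ω ∉ G1 ∪ ⋃ z ∈ R, G2 z := by
    intro A hA
    by_contra hno
    push Not at hno
    exact absurd (lt_of_le_of_lt (hA.trans (measure_mono hno)) hGlt) (lt_irrefl _)
  obtain ⟨ω1, hω1, hg1⟩ := hex _ (by rw [hlow]; exact min_le_left _ _)
  obtain ⟨ω2, hω2, hg2⟩ := hex _ (by rw [hhigh]; exact min_le_right _ _)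
  simp only [Set.mem_union, Set.mem_iUnion, not_or, not_exists] at hg1 hg2
  have hq1 : ∀ z ∈ R, q n ω1 (x - z) z ≤ (ab z).1 := by
    intro z hz
    have := Set.mem_iInter₂.mp hω1 (x - z) (Finset.mem_image_of_mem _ hz)
    have e2 : x - (x - z) = z := by abel
    simpa only [Set.mem_preimage, Set.mem_setOf_eq, e2] using this
  have hq2 : ∀ z ∈ R, (ab z).2 ≤ q n ω2 (x - z) z := by
    intro z hz
    have := Set.mem_iInter₂.mp hω2 (x - z) (Finset.mem_image_of_mem _ hz)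
    have e2 : x - (x - z) = z := by abel
    simpa only [Set.mem_preimage, Set.mem_setOf_eq, e2] using this
  obtain ⟨hM, hM1, -⟩ := ratio_pos (kern_nonneg h ω1 (n + 1) x) hδ1 hg1.1
  obtain ⟨-, -, hM2⟩ := ratio_pos (kern_nonneg h ω2 (n + 1) x) hδ1 hg2.1
  have hr1 : ∀ z ∈ R, 0 < m n (x - z) ∧ kern R q ω1 n (x - z) ≤ (1 + δ) * m n (x - z) :=
    fun z hz => by
      obtain ⟨u1, -, u3⟩ := ratio_pos (kern_nonneg h ω1 n (x - z)) hδ1 (hg1.2 z hz)
      exact ⟨u1, u3⟩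
  have hr2 : ∀ z ∈ R, (1 - δ) * m n (x - z) ≤ kern R q ω2 n (x - z) :=
    fun z hz => (ratio_pos (kern_nonneg h ω2 n (x - z)) hδ1 (hg2.2 z hz)).2.1
  have up : kern R q ω1 (n + 1) x ≤ (1 + δ) * ∑ z ∈ R, m n (x - z) * (ab z).1 := by
    rw [kern, Finset.mul_sum]
    refine Finset.sum_le_sum fun z hz => ?_
    obtain ⟨u1, u3⟩ := hr1 z hz
    have v1 := hq1 z hz
    have v0 := h.nonneg n ω1 (x - z) z
    calc kern R q ω1 n (x - z) * q n ω1 (x - z) z
        ≤ ((1 + δ) * m n (x - z)) * (ab z).1 := mul_le_mul u3 v1 v0 (by positivity)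
      _ = _ := by ring
  have dn : (1 - δ) * ∑ z ∈ R, m n (x - z) * (ab z).2 ≤ kern R q ω2 (n + 1) x := by
    rw [kern, Finset.mul_sum]
    refine Finset.sum_le_sum fun z hz => ?_
    have u1 := (hr1 z hz).1
    have u3 := hr2 z hz
    have v1 := hq2 z hz
    have v0 : 0 ≤ (ab z).2 := by have := hab z hz; linarith [this.1, this.2.1]
    calc (1 - δ) * (m n (x - z) * (ab z).2) = ((1 - δ) * m n (x - z)) * (ab z).2 := by ring
      _ ≤ _ := mul_le_mul u3 v1 v0 (kern_nonneg h ω2 n (x - z))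
  have hstr : (1 + κ) * ∑ z ∈ R, m n (x - z) * (ab z).1 < ∑ z ∈ R, m n (x - z) * (ab z).2 := by
    rw [Finset.mul_sum]
    refine Finset.sum_lt_sum_of_nonempty hRne fun z hz => ?_
    have u1 := (hr1 z hz).1
    have := mul_lt_mul_of_pos_left (hκab z hz) u1
    calc (1 + κ) * (m n (x - z) * (ab z).1) = m n (x - z) * ((1 + κ) * (ab z).1) := by ring
      _ < _ := this
  set A := ∑ z ∈ R, m n (x - z) * (ab z).1 with hA
  set B := ∑ z ∈ R, m n (x - z) * (ab z).2 with hB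
  have hA0 : 0 ≤ A := Finset.sum_nonneg fun z hz => mul_nonneg (hr1 z hz).1.le (hab z hz).1
  have c1 : (1 - δ) * m (n + 1) x ≤ (1 + δ) * A := hM1.trans up
  have c2 : (1 - δ) * B ≤ (1 + δ) * m (n + 1) x := dn.trans hM2
  have c3 : (1 - δ) * ((1 - δ) * B) ≤ (1 - δ) * ((1 + δ) * m (n + 1) x) :=
    mul_le_mul_of_nonneg_left c2 (by linarith)
  have c4 : (1 + δ) * ((1 - δ) * m (n + 1) x) ≤ (1 + δ) * ((1 + δ) * A) :=
    mul_le_mul_of_nonneg_left c1 (by linarith)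
  have c5 : (1 + δ) ^ 2 * A ≤ (1 + κ) * (1 - δ) ^ 2 * A := mul_le_mul_of_nonneg_right hsq hA0
  have c6 : (1 - δ) ^ 2 * ((1 + κ) * A) < (1 - δ) ^ 2 * B :=
    mul_lt_mul_of_pos_left hstr (by nlinarith)
  nlinarith

end

end Pool.Agent.H48.HG
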