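import Pool.Agent.H48.HG.Core

set_option autoImplicit false
set_option linter.unusedSectionVars false

open MeasureTheory ProbabilityTheory Filter Topology
open scoped ENNReal

namespace Pool.Agent.H48.HG

section

variable {d : ℕ} {Ω : Type} [MeasurableSpace Ω] {μ : Measure Ω} [IsProbabilityMeasure μ]
  {R : Finset (Site d)} {q : ℕ → Ω → Site d → Site d → ℝ}

/-- the bad event at a space-time point -/
def bad (μ : Measure Ω) (R : Finset (Site d)) (q : ℕ → Ω → Site d → Site d → ℝ) (δ : ℝ) (n : ℕ)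
    (x : Site d) : Set Ω :=
  {ω | ¬ |kern R q ω n x - avg μ R q n x| ≤ δ * avg μ R q n x}

lemma bad_le (h : IsEnv μ R q) (hL : LocalRatio μ R q) {C δ : ℝ} (hC : 0 < C) (hδ : 0 < δ)
    {η : ℝ≥0∞} (hη : 0 < η) :
    ∀ᶠ n : ℕ in atTop, ∀ x : Site d, nrm x ≤ C * √(n : ℝ) → μ (bad μ R q δ n x) ≤ η := by
  have h1 := hL C hC δ hδ
  filter_upwards [h1.eventually (gt_mem_nhds hη)] with n hn x hx
  rcases (avg_nonneg h n x).lt_or_eq with hp | hp
  · refine le_trans (measure_mono fun ω hω => ?_) (le_trans (le_iSup (fun x : {x : Site d //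
      nrm x ≤ C * √(n : ℝ) ∧ 0 < avg μ R q n x} =>
        μ {ω | δ < |kern R q ω n x / avg μ R q n x - 1|}) ⟨x, hx, hp⟩) hn.le)
    have hω' : ¬ |kern R q ω n x - avg μ R q n x| ≤ δ * avg μ R q n x := hω
    show δ < |kern R q ω n x / avg μ R q n x - 1|
    have e : kern R q ω n x / avg μ R q n x - 1 =
        (kern R q ω n x - avg μ R q n x) / avg μ R q n x := by
      field_simp
    rw [e, abs_div, abs_of_pos hp, lt_div_iff₀ hp]
    exact not_le.mp hω'
  · have hz : ∀ᵐ ω ∂μ, kern R q ω n x = 0 :=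
      (integral_eq_zero_iff_of_nonneg_ae (Eventually.of_forall fun ω => kern_nonneg h ω n x)
        (kern_int h n x)).mp hp.symm
    have : μ (bad μ R q δ n x) = 0 := by
      have h2 : ∀ᵐ ω ∂μ, ω ∉ bad μ R q δ n x := by
        filter_upwards [hz] with ω hω
        have : |kern R q ω n x - avg μ R q n x| ≤ δ * avg μ R q n x := by
          rw [hω, ← hp]; simp
        exact fun hb => hb this
      simpa [ae_iff] using h2
    rw [this]; exact bot_le

/-- the averages times the transition probabilities -/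
noncomputable def SS (μ : Measure Ω) (R : Finset (Site d)) (q : ℕ → Ω → Site d → Site d → ℝ)
    (n : ℕ) (x : Site d) (ω : Ω) : ℝ := ∑ z ∈ R, avg μ R q n (x - z) * q n ω (x - z) z

lemma SS_between (h : IsEnv μ R q) {δ : ℝ} (hδ : 0 < δ) (hδ1 : δ < 1) {n : ℕ} {x : Site d}
    {ω : Ω} (h1 : ω ∉ bad μ R q δ (n + 1) x) (h2 : ∀ z ∈ R, ω ∉ bad μ R q δ n (x - z)) :
    (1 - δ) / (1 + δ) * avg μ R q (n + 1) x ≤ SS μ R q n x ω ∧
      SS μ R q n x ω ≤ (1 + δ) / (1 - δ) * avg μ R q (n + 1) x := by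
  have g1 : |kern R q ω (n + 1) x - avg μ R q (n + 1) x| ≤ δ * avg μ R q (n + 1) x := by
    by_contra hc; exact h1 hc
  have g2 : ∀ z ∈ R, |kern R q ω n (x - z) - avg μ R q n (x - z)| ≤ δ * avg μ R q n (x - z) := by
    intro z hz
    by_contra hc; exact h2 z hz hc
  obtain ⟨g3, g4⟩ := abs_le.mp g1
  have e : kern R q ω (n + 1) x = ∑ z ∈ R, kern R q ω n (x - z) * q n ω (x - z) z := rfl
  have up : kern R q ω (n + 1) x ≤ (1 + δ) * SS μ R q n x ω := by
    rw [e, SS, Finset.mul_sum]
    refine Finset.sum_le_sum fun z hz => ?_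
    have := (abs_le.mp (g2 z hz)).2
    have hq := h.nonneg n ω (x - z) z
    nlinarith [mul_le_mul_of_nonneg_right this hq]
  have dn : (1 - δ) * SS μ R q n x ω ≤ kern R q ω (n + 1) x := by
    rw [e, SS, Finset.mul_sum]
    refine Finset.sum_le_sum fun z hz => ?_
    have := (abs_le.mp (g2 z hz)).1
    have hq := h.nonneg n ω (x - z) z
    nlinarith [mul_le_mul_of_nonneg_right this hq]
  constructor
  · rw [div_mul_eq_mul_div, div_le_iff₀ (by linarith)]
    linarith
  · rw [div_mul_eq_mul_div, le_div_iff₀ (by linarith)]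
    linarith

lemma indep_TX (h : IsEnv μ R q) (n : ℕ) (x z0 : Site d) :
    IndepFun (fun ω => ∑ z ∈ R.erase z0, avg μ R q n (x - z) * q n ω (x - z) z)
      (fun ω => q n ω (x - z0) z0) μ := by
  classical
  set S : Finset (Site d) := (R.erase z0).image fun z => x - z with hS
  have hdis : Disjoint S {x - z0} := by
    rw [Finset.disjoint_singleton_right, hS, Finset.mem_image]
    rintro ⟨z, hz, he⟩
    have : z = z0 := sub_right_injective he
    exact (Finset.ne_of_mem_erase hz) this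
  have hm : ∀ i : Site d, Measurable fun ω => q n ω i := fun i => measurable_pi_iff.mpr (h.meas n i)
  have hind := (h.indep n).indepFun_finset S {x - z0} hdis hm
  have hφ : Measurable fun v : S → (Site d → ℝ) => ∑ z ∈ R.erase z0, avg μ R q n (x - z) *
      (if hz : x - z ∈ S then v ⟨x - z, hz⟩ z else 0) := by
    refine Finset.measurable_sum _ fun z _ => Measurable.const_mul ?_ _
    by_cases hz : x - z ∈ S
    · simp only [hz, dite_true]
      exact (measurable_pi_apply z).comp (measurable_pi_apply (⟨x - z, hz⟩ : S))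
    · simp only [hz, dite_false]
      exact measurable_const
  have hψ : Measurable fun v : ({x - z0} : Finset (Site d)) → (Site d → ℝ) =>
      v ⟨x - z0, Finset.mem_singleton_self _⟩ z0 :=
    (measurable_pi_apply z0).comp (measurable_pi_apply _)
  have := hind.comp hφ hψ
  refine (this.congr ?_ ?_)
  · refine Eventually.of_forall fun ω => ?_
    simp only [Function.comp]
    refine Finset.sum_congr rfl fun z hz => ?_
    rw [dif_pos (Finset.mem_image_of_mem _ hz)]
  · exact Eventually.of_forall fun ω => rfl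

/-- the step: a random transition probability makes the average at `y` small compared with the
average at `y + z0` one time unit later -/
lemma step (h : IsEnv μ R q) {δ : ℝ} (hδ : 0 < δ) (hδ1 : δ < 1) {n : ℕ} {y z0 : Site d}
    (hz0 : z0 ∈ R) {a b : ℝ} {p η : ℝ≥0∞}
    (ha : p ≤ μ {ω | q n ω y z0 ≤ a}) (hb : p ≤ μ {ω | b ≤ q n ω y z0})
    (h1 : μ (bad μ R q δ (n + 1) (y + z0)) ≤ η)
    (h2 : ∀ z ∈ R, μ (bad μ R q δ n (y + z0 - z)) ≤ η)
    (hη : ((R.card : ℝ≥0∞) + 1) * η < p) :
    avg μ R q n y * (b - a) ≤ ((1 + δ) / (1 - δ) - (1 - δ) / (1 + δ)) *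
      avg μ R q (n + 1) (y + z0) := by
  classical
  by_contra hcon
  push Not at hcon
  set x : Site d := y + z0 with hx
  have hy : x - z0 = y := by rw [hx]; abel
  have hT : Measurable fun ω => ∑ z ∈ R.erase z0, avg μ R q n (x - z) * q n ω (x - z) z :=
    Finset.measurable_sum _ fun z _ => (h.meas n _ _).const_mul _
  have hind := indep_TX h n x z0
  rw [hy] at hind
  have key := fluct (μ := μ) (lo := (1 - δ) / (1 + δ) * avg μ R q (n + 1) x)
    (hi := (1 + δ) / (1 - δ) * avg μ R q (n + 1) x) hT (h.meas n y z0) hind (avg_nonneg h n y)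
    (by linarith) ha hb
  have hsub : {ω | ¬ ((1 - δ) / (1 + δ) * avg μ R q (n + 1) x ≤
      (∑ z ∈ R.erase z0, avg μ R q n (x - z) * q n ω (x - z) z) + avg μ R q n y * q n ω y z0 ∧
      (∑ z ∈ R.erase z0, avg μ R q n (x - z) * q n ω (x - z) z) + avg μ R q n y * q n ω y z0 ≤
      (1 + δ) / (1 - δ) * avg μ R q (n + 1) x)} ⊆
      bad μ R q δ (n + 1) x ∪ ⋃ z ∈ R, bad μ R q δ n (x - z) := by
    intro ω hω
    by_contra hc
    simp only [Set.mem_union, Set.mem_iUnion, not_or, not_exists] at hc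
    apply hω
    have := SS_between h hδ hδ1 hc.1 fun z hz => hc.2 z hz
    have e : SS μ R q n x ω = (∑ z ∈ R.erase z0, avg μ R q n (x - z) * q n ω (x - z) z) +
        avg μ R q n y * q n ω y z0 := by
      rw [SS, ← Finset.sum_erase_add _ _ hz0, hy]
    rw [e] at this
    exact this
  have hle : μ (bad μ R q δ (n + 1) x ∪ ⋃ z ∈ R, bad μ R q δ n (x - z)) ≤
      ((R.card : ℝ≥0∞) + 1) * η := by
    calc _ ≤ μ (bad μ R q δ (n + 1) x) + μ (⋃ z ∈ R, bad μ R q δ n (x - z)) := measure_union_le _ _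
      _ ≤ η + ∑ z ∈ R, μ (bad μ R q δ n (x - z)) := by
          gcongr
          exact measure_biUnion_finset_le _ _
      _ ≤ η + ∑ _z ∈ R, η := by gcongr with z hz; exact h2 z hz
      _ = ((R.card : ℝ≥0∞) + 1) * η := by
          rw [Finset.sum_const, nsmul_eq_mul]; ring
  exact absurd (lt_of_le_of_lt ((key.trans (measure_mono hsub)).trans hle) hη) (lt_irrefl _)

lemma nrm_add (x y : Site d) : nrm (x + y) ≤ nrm x + nrm y := by
  have e : ∀ v : Site d, nrm v = ‖(WithLp.toLp 2 (fun i => (v i : ℝ)) : EuclideanSpace ℝ (Fin d))‖ := by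
    intro v
    rw [EuclideanSpace.norm_eq, nrm]
    congr 1
    exact Finset.sum_congr rfl fun i _ => by simp
  rw [e, e, e]
  refine le_trans (le_of_eq ?_) (norm_add_le _ _)
  congr 1
  ext i
  simp

lemma nrm_neg (x : Site d) : nrm (-x) = nrm x := by simp [nrm]

theorem deterministic (h : IsEnv μ R q) (hS : Stays μ R q) (hL : LocalRatio μ R q) :
    ∃ π : Site d → ℝ, ∀ n y, ∀ᵐ ω ∂μ, ∀ z, q n ω y z = π z := by
  classical
  have hall : ∀ z : Site d, ∃ c : ℝ, ∀ᵐ ω ∂μ, q 0 ω 0 z = c := by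
    intro z0
    by_contra hn
    by_cases hz0 : z0 ∈ R
    swap
    · exact hn ⟨0, Eventually.of_forall fun ω => h.outside 0 ω 0 z0 hz0⟩
    obtain ⟨a, b, ha0, hab, hpa, hpb⟩ := exists_gap (μ := μ) (h.meas 0 0 z0)
      (fun ω => h.nonneg 0 ω 0 z0) (fun ω => q_le_one h 0 ω 0 z0) hn
    set p : ℝ≥0∞ := min (μ {ω | q 0 ω 0 z0 ≤ a}) (μ {ω | b ≤ q 0 ω 0 z0}) with hp
    have hp0 : 0 < p := lt_min hpa hpb
    have hp1 : p ≤ 1 := (min_le_left _ _).trans prob_le_one
    have hA : ∀ n y, p ≤ μ {ω | q n ω y z0 ≤ a} := by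
      intro n y
      have := (h.ident n y).measure_mem_eq (s := {v : Site d → ℝ | v z0 ≤ a})
        ((measurable_pi_apply z0) measurableSet_Iic)
      have e : μ {ω | q n ω y z0 ≤ a} = μ {ω | q 0 ω 0 z0 ≤ a} := this
      rw [e]; exact min_le_left _ _
    have hB : ∀ n y, p ≤ μ {ω | b ≤ q n ω y z0} := by
      intro n y
      have := (h.ident n y).measure_mem_eq (s := {v : Site d → ℝ | b ≤ v z0})
        ((measurable_pi_apply z0) measurableSet_Ici)
      have e : μ {ω | b ≤ q n ω y z0} = μ {ω | b ≤ q 0 ω 0 z0} := this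
      rw [e]; exact min_le_right _ _
    obtain ⟨C, hC, c, hc, hfreq⟩ := hS
    have hpos : 0 < (b - a) * c := mul_pos (by linarith) hc
    set δ : ℝ := min (1 / 2) ((b - a) * c / 12) with hδd
    have hδ : 0 < δ := lt_min (by norm_num) (by positivity)
    have hδ2 : δ ≤ 1 / 2 := min_le_left _ _
    have hδ3 : δ ≤ (b - a) * c / 12 := min_le_right _ _
    have hδ1 : δ < 1 := by linarith
    have hr : (1 + δ) / (1 - δ) - (1 - δ) / (1 + δ) ≤ 6 * δ := by
      have h1 : (1 + δ) / (1 - δ) ≤ 1 + 4 * δ := by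
        rw [div_le_iff₀ (by linarith)]; nlinarith
      have h2 : 1 - 2 * δ ≤ (1 - δ) / (1 + δ) := by
        rw [le_div_iff₀ (by linarith)]; nlinarith
      linarith
    set K : ℝ≥0∞ := (R.card : ℝ≥0∞) + 2 with hK
    have hK0 : K ≠ 0 := by simp [hK]
    have hKt : K ≠ ⊤ := by simp [hK]
    set η : ℝ≥0∞ := p / K with hη
    have hη0 : 0 < η := ENNReal.div_pos hp0.ne' hKt
    have hηlt : ((R.card : ℝ≥0∞) + 1) * η < p := by
      have e : K * η = p := ENNReal.mul_div_cancel hK0 hKt
      have e2 : ((R.card : ℝ≥0∞) + 1) * η + η = p := by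
        rw [← e, hK]; ring
      have hfin : ((R.card : ℝ≥0∞) + 1) * η ≠ ⊤ := by
        refine ne_top_of_le_ne_top (ne_top_of_le_ne_top ENNReal.one_ne_top hp1) ?_
        rw [← e2]; exact le_self_add
      calc ((R.card : ℝ≥0∞) + 1) * η < ((R.card : ℝ≥0∞) + 1) * η + η :=
            ENNReal.lt_add_right hfin hη0.ne'
        _ = p := e2
    set r : ℝ := ∑ z ∈ R, nrm z with hr'
    have hrz : ∀ z ∈ R, nrm z ≤ r := fun z hz =>
      Finset.single_le_sum (f := fun z => nrm z) (fun i _ => Real.sqrt_nonneg _) hz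
    have hr0 : 0 ≤ r := Finset.sum_nonneg fun i _ => Real.sqrt_nonneg _
    have hbad := bad_le h hL (C := C + 2 * r + 1) (by linarith) hδ hη0
    have hbad' : ∀ᶠ n : ℕ in atTop, ∀ x : Site d,
        nrm x ≤ (C + 2 * r + 1) * √((n + 1 : ℕ) : ℝ) → μ (bad μ R q δ (n + 1) x) ≤ η :=
      (tendsto_add_atTop_nat 1).eventually hbad
    obtain ⟨n, ⟨F, hF, hcF⟩, hb1, hb2, hn1⟩ :=
      (hfreq.and_eventually (hbad.and (hbad'.and (eventually_ge_atTop 1)))).exists
    have hs1 : 1 ≤ √(n : ℝ) := by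
      rw [Real.one_le_sqrt]; exact_mod_cast hn1
    have hs2 : √(n : ℝ) ≤ √((n + 1 : ℕ) : ℝ) := Real.sqrt_le_sqrt (by push_cast; linarith)
    have hst : ∀ y ∈ F, avg μ R q n y * (b - a) ≤ 6 * δ * avg μ R q (n + 1) (y + z0) := by
      intro y hy
      have hys := hF y hy
      have hz0r := hrz z0 hz0
      have hyz : nrm (y + z0) ≤ (C + r) * √(n : ℝ) := by
        refine (nrm_add y z0).trans ?_
        nlinarith
      have hst := step h hδ hδ1 hz0 (hA n y) (hB n y) (hb2 (y + z0) (by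
        refine hyz.trans ?_
        have : (C + r) * √(n : ℝ) ≤ (C + 2 * r + 1) * √(n : ℝ) := by
          apply mul_le_mul_of_nonneg_right _ (Real.sqrt_nonneg _); linarith
        refine this.trans ?_
        exact mul_le_mul_of_nonneg_left hs2 (by linarith))) (fun z hz => hb1 (y + z0 - z) (by
        have e : y + z0 - z = (y + z0) + (-z) := by abel
        rw [e]
        refine (nrm_add _ _).trans ?_
        rw [nrm_neg]
        have := hrz z hz
        nlinarith)) hηlt
      refine hst.trans ?_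
      exact mul_le_mul_of_nonneg_right hr (avg_nonneg h _ _)
    have hsum : (∑ y ∈ F, avg μ R q n y) * (b - a) ≤
        6 * δ * ∑ y ∈ F, avg μ R q (n + 1) (y + z0) := by
      rw [Finset.sum_mul, Finset.mul_sum]
      exact Finset.sum_le_sum hst
    have hshift : ∑ y ∈ F, avg μ R q (n + 1) (y + z0) ≤ 1 := by
      have : ∑ y ∈ F, avg μ R q (n + 1) (y + z0) =
          ∑ x ∈ F.image (fun y => y + z0), avg μ R q (n + 1) x := by
        rw [Finset.sum_image]
        intro a _ b _ hab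
        exact add_right_cancel hab
      rw [this]
      exact avg_sum_le h _ _
    have h5 : c * (b - a) ≤ 6 * δ * 1 := by
      calc c * (b - a) ≤ (∑ y ∈ F, avg μ R q n y) * (b - a) :=
            mul_le_mul_of_nonneg_right hcF (by linarith)
        _ ≤ _ := hsum
        _ ≤ 6 * δ * 1 := mul_le_mul_of_nonneg_left hshift (by linarith)
    nlinarith
  choose π hπ using hall
  refine ⟨π, fun n y => ?_⟩
  rw [ae_all_iff]
  intro z
  have hm0 : MeasurableSet ((fun v : Site d → ℝ => v z) ⁻¹' {π z}) :=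
    (measurable_pi_apply z) (measurableSet_singleton (π z))
  have hm : MeasurableSet {v : Site d → ℝ | ¬ v z = π z} := hm0.compl
  have := (h.ident n y).measure_mem_eq hm
  have e : μ {ω | ¬ q n ω y z = π z} = μ {ω | ¬ q 0 ω 0 z = π z} := this
  rw [ae_iff, e]
  exact ae_iff.mp (hπ z)

theorem localRatio_of_deterministic (h : IsEnv μ R q)
    (hπ : ∃ π : Site d → ℝ, ∀ n y, ∀ᵐ ω ∂μ, ∀ z, q n ω y z = π z) : LocalRatio μ R q := by
  obtain ⟨π, hπ⟩ := hπ
  have hall : ∀ᵐ ω ∂μ, ∀ n y z, q n ω y z = π z := by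
    rw [ae_all_iff]; intro n
    rw [ae_all_iff]; intro y
    exact hπ n y
  have hk : ∀ ω ω' : Ω, (∀ n y z, q n ω y z = π z) → (∀ n y z, q n ω' y z = π z) →
      ∀ n x, kern R q ω n x = kern R q ω' n x := by
    intro ω ω' h1 h2 n
    induction n with
    | zero => intro x; rfl
    | succ n ih =>
      intro x
      simp only [kern]
      exact Finset.sum_congr rfl fun z _ => by rw [ih, h1, h2]
  have hc : ∀ n x, ∀ᵐ ω ∂μ, kern R q ω n x = avg μ R q n x := by
    intro n x
    obtain ⟨ω0, hω0⟩ := hall.exists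
    have e : avg μ R q n x = kern R q ω0 n x := by
      unfold avg
      rw [integral_congr_ae (g := fun _ => kern R q ω0 n x) (by
        filter_upwards [hall] with ω hω using hk ω ω0 hω hω0 n x)]
      simp
    filter_upwards [hall] with ω hω
    rw [e, hk ω ω0 hω hω0 n x]
  intro C hC δ hδ
  have hz : ∀ n : ℕ, (⨆ x : {x : Site d // nrm x ≤ C * √(n : ℝ) ∧ 0 < avg μ R q n x},
      μ {ω | δ < |kern R q ω n x / avg μ R q n x - 1|}) = 0 := by
    intro n
    refine le_antisymm (iSup_le ?_) bot_le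
    rintro ⟨x, hx, hp⟩
    refine le_of_eq ?_
    have : ∀ᵐ ω ∂μ, ¬ δ < |kern R q ω n x / avg μ R q n x - 1| := by
      filter_upwards [hc n x] with ω hω
      rw [hω, div_self hp.ne']
      simp [hδ.le]
    simpa [ae_iff] using this
  simp only [hz]
  exact tendsto_const_nhds

end

end Pool.Agent.H48.HG
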